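import Mathlib

set_option autoImplicit false

namespace Pool.Agent.helper24.S12

open Finset Filter Asymptotics

/-- the sizes of the families of `k`-subsets of `Fin n` with intersection sizes in `L` -/
def famSizes (n k : ℕ) (L : Finset ℕ) : Set ℕ :=
  {s : ℕ | ∃ F : Finset (Finset (Fin n)), F.card = s ∧
    (∀ A ∈ F, A.card = k) ∧
    ∀ A ∈ F, ∀ B ∈ F, A ≠ B → (A ∩ B).card ∈ L}

/-- `m(n,k,L)` -/
noncomputable def mm (n k : ℕ) (L : Finset ℕ) : ℕ := sSup (famSizes n k L)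

lemma famSizes_bdd (n k : ℕ) (L : Finset ℕ) : BddAbove (famSizes n k L) := by
  refine ⟨2 ^ n, ?_⟩
  rintro s ⟨F, rfl, -, -⟩
  calc F.card ≤ (univ : Finset (Finset (Fin n))).card := card_le_card (subset_univ F)
    _ = 2 ^ n := by simp

lemma famSizes_nonempty (n k : ℕ) (L : Finset ℕ) : (famSizes n k L).Nonempty :=
  ⟨0, ∅, rfl, by simp, by simp⟩

lemma le_mm {n k : ℕ} {L : Finset ℕ} (F : Finset (Finset (Fin n)))
    (h1 : ∀ A ∈ F, A.card = k)
    (h2 : ∀ A ∈ F, ∀ B ∈ F, A ≠ B → (A ∩ B).card ∈ L) : F.card ≤ mm n k L :=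
  le_csSup (famSizes_bdd n k L) ⟨F, rfl, h1, h2⟩

lemma exists_mm (n k : ℕ) (L : Finset ℕ) : ∃ F : Finset (Finset (Fin n)),
    F.card = mm n k L ∧ (∀ A ∈ F, A.card = k) ∧
    ∀ A ∈ F, ∀ B ∈ F, A ≠ B → (A ∩ B).card ∈ L :=
  Nat.sSup_mem (famSizes_nonempty n k L) (famSizes_bdd n k L)

/-- families over an arbitrary finite ground set -/
lemma le_mm_of_embed {α : Type*} [DecidableEq α] {n k : ℕ} {L : Finset ℕ} (f : α ↪ Fin n)
    (F : Finset (Finset α)) (h1 : ∀ A ∈ F, A.card = k)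
    (h2 : ∀ A ∈ F, ∀ B ∈ F, A ≠ B → (A ∩ B).card ∈ L) : F.card ≤ mm n k L := by
  classical
  have hinj : Function.Injective (fun A : Finset α => A.map f) := map_injective f
  rw [← card_image_of_injective F hinj]
  refine le_mm _ ?_ ?_
  · intro A hA
    obtain ⟨B, hB, rfl⟩ := mem_image.1 hA
    simp [h1 B hB]
  · intro A hA A' hA' hne
    obtain ⟨B, hB, rfl⟩ := mem_image.1 hA
    obtain ⟨B', hB', rfl⟩ := mem_image.1 hA'
    have : B.map f ∩ B'.map f = (B ∩ B').map f := by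
      rw [Finset.map_inter]
    simp only [this, card_map]
    exact h2 B hB B' hB' (fun h => hne (by rw [h]))

lemma mm_mono {n n' k : ℕ} {L : Finset ℕ} (h : n ≤ n') : mm n k L ≤ mm n' k L := by
  obtain ⟨F, h0, h1, h2⟩ := exists_mm n k L
  rw [← h0]
  exact le_mm_of_embed (Fin.castLEEmb h) F h1 h2

/-- Blow-up: a relation `R` with `t` attributes over `Fin n`, whose pairs of distinct rows agree on
sets of weight in `L`, gives a family on `(∑ w) * n` points. -/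
lemma blow {t n : ℕ} (w : Fin t → ℕ) (L : Finset ℕ) (R : Finset (Fin t → Fin n))
    (hR : ∀ ρ ∈ R, ∀ σ ∈ R, ρ ≠ σ → ∑ i ∈ univ.filter (fun i => ρ i = σ i), w i ∈ L)
    (hL : (∑ i, w i) ∉ L) :
    R.card ≤ mm ((∑ i, w i) * n) (∑ i, w i) L := by
  classical
  -- ground set
  let α := (Σ i : Fin t, Fin (w i)) × Fin n
  have hcard : Fintype.card α = (∑ i, w i) * n := by
    simp [α, Fintype.card_prod, Fintype.card_sigma]
  let e : α ↪ Fin ((∑ i, w i) * n) :=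
    (Fintype.equivFinOfCardEq hcard).toEmbedding
  let g : (Fin t → Fin n) → Finset α := fun ρ =>
    univ.image (fun q : (Σ i : Fin t, Fin (w i)) => ((q, ρ q.1) : α))
  have hmem : ∀ ρ (x : α), x ∈ g ρ ↔ x.2 = ρ x.1.1 := by
    intro ρ x
    simp only [g, mem_image, mem_univ, true_and]
    constructor
    · rintro ⟨q, rfl⟩; rfl
    · intro h; exact ⟨x.1, Prod.ext rfl h.symm⟩
  have hgcard : ∀ ρ, (g ρ).card = ∑ i, w i := by
    intro ρ
    rw [card_image_of_injective _ (fun a b h => (Prod.ext_iff.1 h).1)]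
    simp [Fintype.card_sigma]
  have hinter : ∀ ρ σ, (g ρ ∩ g σ).card = ∑ i ∈ univ.filter (fun i => ρ i = σ i), w i := by
    intro ρ σ
    have : g ρ ∩ g σ = (univ.filter (fun q : (Σ i : Fin t, Fin (w i)) => ρ q.1 = σ q.1)).image
        (fun q => ((q, ρ q.1) : α)) := by
      ext x
      rw [mem_inter, hmem, hmem]
      simp only [mem_image, mem_filter, mem_univ, true_and]
      constructor
      · rintro ⟨h1, h2⟩
        exact ⟨x.1, by rw [← h1, ← h2], Prod.ext rfl h1.symm⟩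
      · rintro ⟨q, hq, rfl⟩
        exact ⟨rfl, hq⟩
    rw [this, card_image_of_injective _ (fun a b h => (Prod.ext_iff.1 h).1)]
    have h2 : (univ.filter (fun q : (Σ i : Fin t, Fin (w i)) => ρ q.1 = σ q.1))
        = (univ.filter (fun i => ρ i = σ i)).sigma (fun i => (univ : Finset (Fin (w i)))) := by
      ext q
      simp
    rw [h2, card_sigma]
    simp
  have hinj : Set.InjOn g (R : Set (Fin t → Fin n)) := by
    intro ρ hρ σ hσ h
    by_contra hne
    have h1 := hR ρ hρ σ hσ hne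
    rw [← hinter, h, inter_self, hgcard] at h1
    exact hL h1
  rw [← card_image_of_injOn hinj]
  refine le_mm_of_embed e _ ?_ ?_
  · intro A hA
    obtain ⟨ρ, hρ, rfl⟩ := mem_image.1 hA
    exact hgcard ρ
  · intro A hA B hB hne
    obtain ⟨ρ, hρ, rfl⟩ := mem_image.1 hA
    obtain ⟨σ, hσ, rfl⟩ := mem_image.1 hB
    rw [hinter]
    exact hR ρ hρ σ hσ (fun h => hne (by rw [h]))

/-- Final assembly: no exponent. -/
theorem no_exponent {k : ℕ} {L : Finset ℕ} (r : ℝ)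
    (hlow : ∀ ε : ℝ, 0 < ε → ∃ᶠ n : ℕ in atTop, (n : ℝ) ^ (r - ε) ≤ (mm n k L : ℝ))
    (hup : ∀ c : ℝ, 0 < c → ∃ᶠ n : ℕ in atTop, (mm n k L : ℝ) < c * (n : ℝ) ^ r) :
    ¬ ∃ α : ℝ, 1 ≤ α ∧ IsTheta atTop (fun n : ℕ => (mm n k L : ℝ)) (fun n : ℕ => (n : ℝ) ^ α) := by
  rintro ⟨α, hα, hO, hΩ⟩
  -- first `r ≤ α`
  have hr : r ≤ α := by
    by_contra hlt
    push Not at hlt
    obtain ⟨C, hC0, hC⟩ := hO.exists_pos
    rw [IsBigOWith] at hC
    have hε : 0 < (r - α) / 2 := by linarith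
    have hfr := hlow _ hε
    -- eventually `C * n ^ α < n ^ (r - (r-α)/2)`
    have hlim : Tendsto (fun n : ℕ => (n : ℝ) ^ ((r - α) / 2)) atTop atTop :=
      (tendsto_rpow_atTop hε).comp tendsto_natCast_atTop_atTop
    have hbig := hlim.eventually_gt_atTop C
    obtain ⟨n, hn1, hn2, hn3, hn4⟩ :=
      (hfr.and_eventually (hC.and (hbig.and (eventually_gt_atTop 0)))).exists
    have hnpos : (0 : ℝ) < n := by exact_mod_cast hn4
    rw [Real.norm_of_nonneg (by positivity), Real.norm_of_nonneg (by positivity)] at hn2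
    have h1 : (n : ℝ) ^ (r - (r - α) / 2) = (n : ℝ) ^ ((r - α) / 2) * (n : ℝ) ^ α := by
      rw [← Real.rpow_add hnpos]; congr 1; ring
    rw [h1] at hn1
    have h2 : C * (n : ℝ) ^ α < (n : ℝ) ^ ((r - α) / 2) * (n : ℝ) ^ α :=
      mul_lt_mul_of_pos_right hn3 (Real.rpow_pos_of_pos hnpos _)
    linarith
  obtain ⟨C, hC0, hC⟩ := hΩ.exists_pos
  rw [IsBigOWith] at hC
  obtain ⟨n, hn1, hn2, hn3⟩ :=
    ((hup C⁻¹ (inv_pos.2 hC0)).and_eventually (hC.and (eventually_ge_atTop 1))).exists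
  have hn1' : (1 : ℝ) ≤ n := by exact_mod_cast hn3
  rw [Real.norm_of_nonneg (by positivity), Real.norm_of_nonneg (by positivity)] at hn2
  have h3 : (n : ℝ) ^ r ≤ (n : ℝ) ^ α := Real.rpow_le_rpow_of_exponent_le hn1' hr
  have h4 : C * (mm n k L : ℝ) < C * (C⁻¹ * (n : ℝ) ^ r) := mul_lt_mul_of_pos_left hn1 hC0
  rw [← mul_assoc, mul_inv_cancel₀ hC0.ne', one_mul] at h4
  linarith

/-- The frozen negation from one pair `k, L` without exponent. -/
theorem frozen_of (k : ℕ) (L : Finset ℕ) (hL : L.Nonempty) (hLk : L ⊆ range k) (r : ℝ)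
    (hlow : ∀ ε : ℝ, 0 < ε → ∃ᶠ n : ℕ in atTop, (n : ℝ) ^ (r - ε) ≤ (mm n k L : ℝ))
    (hup : ∀ c : ℝ, 0 < c → ∃ᶠ n : ℕ in atTop, (mm n k L : ℝ) < c * (n : ℝ) ^ r) :
    ¬ (∀ (k : ℕ) (L : Finset ℕ), L.Nonempty → L ⊆ Finset.range k →
      ∃ α : ℝ, 1 ≤ α ∧
        Asymptotics.IsTheta Filter.atTop
          (fun n : ℕ => ((sSup {s : ℕ | ∃ F : Finset (Finset (Fin n)), F.card = s ∧
              (∀ A ∈ F, A.card = k) ∧
              ∀ A ∈ F, ∀ B ∈ F, A ≠ B → (A ∩ B).card ∈ L} : ℕ) : ℝ))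
          (fun n : ℕ => (n : ℝ) ^ α)) :=
  fun h => no_exponent r hlow hup (h k L hL hLk)

end Pool.Agent.helper24.S12
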